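import Pool.Agent.MP_dbd6a6_co.H70.Spec

/-! Module E1: coefficient inequalities for the powers of the moment series. -/

open Finset PowerSeries

noncomputable section

namespace Pool.Agent.MP_dbd6a6_co.H86

open H92 H70

/-- all coefficients are nonnegative -/
def NN (f : ℝ⟦X⟧) : Prop := ∀ n, 0 ≤ coeff n f

lemma NN.mul {f g : ℝ⟦X⟧} (hf : NN f) (hg : NN g) : NN (f * g) := fun n => by
  rw [coeff_mul]; exact sum_nonneg fun p _ => mul_nonneg (hf _) (hg _)

lemma NN.pow {f : ℝ⟦X⟧} (hf : NN f) : ∀ j, NN (f ^ j)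
  | 0 => fun n => by rw [pow_zero, coeff_one]; split_ifs <;> norm_num
  | j + 1 => by rw [pow_succ]; exact (NN.pow hf j).mul hf

lemma pow_pos' {f : ℝ⟦X⟧} (hf : ∀ n, 0 < coeff n f) : ∀ j n, 0 < coeff n (f ^ (j + 1))
  | 0, n => by simpa using hf n
  | j + 1, n => by
    rw [pow_succ, coeff_mul]
    exact sum_pos (fun p _ => mul_pos (pow_pos' hf j _) (hf _)) ⟨(0, n), by simp⟩

def Qps (y : ℝ) : ℝ⟦X⟧ := PowerSeries.mk fun r => mm (-y) (r + 1) / (r + 1).factorial

/-- the moments without the zeroth one -/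
def ww (y : ℝ) (k : ℕ) : ℝ := if k = 0 then 0 else mm (-y) k

variable {y : ℝ}

lemma coeff_W (k : ℕ) : coeff k (Wps y) = ww y k / k.factorial := by
  simp only [Wps, coeff_mk, ww]; split_ifs <;> simp

lemma W_eq (y : ℝ) : Wps y = X * Qps y := by
  ext n
  rcases n with _ | n
  · simp [Wps]
  · rw [coeff_succ_X_mul]; simp [Wps, Qps]

lemma coeff_dW (r : ℕ) : coeff r (d⁄dX ℝ (Wps y)) = mm (-y) (r + 1) / r.factorial := by
  rw [coeff_derivative, coeff_W, ww, if_neg r.succ_ne_zero, Nat.factorial_succ]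
  push_cast; field_simp

lemma coeff_pow_dW (i m : ℕ) : ((i : ℝ) + 1) * coeff m (Wps y ^ i * d⁄dX ℝ (Wps y)) =
    (m + 1) * coeff (m + 1) (Wps y ^ (i + 1)) := by
  rw [mul_comm (m + 1 : ℝ), ← coeff_derivative, derivative_pow, Nat.add_sub_cancel, mul_assoc,
    ← nsmul_eq_mul, map_nsmul, nsmul_eq_mul]
  push_cast; rfl

lemma coeff_pow_Q (i m : ℕ) : coeff m (Wps y ^ i * Qps y) = coeff (m + 1) (Wps y ^ (i + 1)) := by
  rw [pow_succ]
  conv_rhs => arg 2; arg 2; rw [W_eq]
  rw [mul_left_comm, coeff_succ_X_mul]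

lemma aa_zero (y : ℝ) (j m : ℕ) (h : m < j) : aa y j m = 0 := by
  rw [aa, W_eq, mul_pow, coeff_X_pow_mul', if_neg (by omega), mul_zero]

lemma aa_self (y : ℝ) (m : ℕ) : aa y m m = m.factorial * y ^ m := by
  rw [aa, W_eq, mul_pow, coeff_X_pow_mul', if_pos le_rfl, Nat.sub_self]
  simp [Qps, mm, ← coeff_zero_eq_constantCoeff_apply, -coeff_zero_eq_constantCoeff]
  left
  rw [coeff_zero_eq_constantCoeff_apply, map_pow, ← coeff_zero_eq_constantCoeff_apply]
  simp [mm]

lemma aa_succ (y : ℝ) (j m : ℕ) :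
    aa y (j + 1) m = ∑ N ∈ range (m + 1), m.choose N * ww y N * aa y j (m - N) := by
  rw [aa, pow_succ', coeff_mul, Nat.sum_antidiagonal_eq_sum_range_succ_mk, mul_sum]
  refine sum_congr rfl fun N hN => ?_
  rw [coeff_W, aa, ← Nat.choose_mul_factorial_mul_factorial (mem_range_succ_iff.1 hN)]
  have : (N.factorial : ℝ) ≠ 0 := by positivity
  push_cast; field_simp

lemma VI_eq (hy : 0 < y) (lam : ℝ) (p : ℕ) :
    VI y lam p = ∑ N ∈ range (p + 1), p.choose N * ww y N / lam ^ N := by
  have hw := continuous_wt hy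
  have e : ∀ θ, wt y θ * ((1 + xx y θ / lam) ^ p - 1) = ∑ N ∈ range (p + 1),
      (if N = 0 then 0 else p.choose N / lam ^ N) * (wt y θ * xx y θ ^ N) := fun θ => by
    rw [add_comm, add_pow, sum_range_succ', sum_range_succ']
    simp only [Nat.succ_ne_zero, if_false, if_true, one_pow, pow_zero, mul_one, Nat.choose_zero_right,
      Nat.cast_one, add_sub_cancel_right, zero_mul, add_zero, mul_sum]
    exact sum_congr rfl fun N _ => by rw [div_pow]; ring
  simp only [VI, IA, e]
  rw [intervalIntegral.integral_finsetSum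
    fun N _ => Continuous.intervalIntegrable (by fun_prop) _ _]
  refine sum_congr rfl fun N _ => ?_
  rw [intervalIntegral.integral_const_mul, mom hy, ww]
  split_ifs <;> ring

lemma cc_eq (y : ℝ) (k : ℕ) :
    cc y (k + 1) = ∑ j ∈ range (k + 1), (-1) ^ j * aa y (j + 1) (k + 1) / (j + 1) := by
  let Cs : ℝ⟦X⟧ := PowerSeries.mk fun i => cc y (i + 1) / i.factorial
  have h1 : d⁄dX ℝ (Wps y) = Cs * (1 - -Wps y) := by
    ext n
    rw [coeff_dW, cumulant_A, coeff_mul, Nat.sum_antidiagonal_eq_sum_range_succ_mk, sum_div]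
    refine sum_congr rfl fun i hi => ?_
    have e : coeff (n - i) (1 - -Wps y) = mm (-y) (n - i) / (n - i).factorial := by
      rw [sub_neg_eq_add, map_add, coeff_one, coeff_W, ww]
      split_ifs with h <;> simp [h, mm]
    rw [e, ← Nat.choose_mul_factorial_mul_factorial (mem_range_succ_iff.1 hi)]
    have : (n.choose i : ℝ) ≠ 0 := by
      exact_mod_cast (Nat.choose_pos (mem_range_succ_iff.1 hi)).ne'
    simp only [Cs, coeff_mk, cc]
    push_cast; field_simp
  have h2 : coeff k (Cs * (1 - (-Wps y) ^ (k + 1))) = cc y (k + 1) / k.factorial := by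
    rw [mul_sub, mul_one, map_sub, W_eq, ← mul_neg, mul_pow, mul_left_comm, coeff_X_pow_mul',
      if_neg (by omega), sub_zero, coeff_mk]
  rw [← mul_neg_geom_sum, ← mul_assoc, ← h1, mul_sum, map_sum, eq_div_iff (by positivity)] at h2
  rw [← h2, sum_mul]
  refine sum_congr rfl fun j _ => ?_
  have e : d⁄dX ℝ (Wps y) * (-Wps y) ^ j = ((-1 : ℝ) ^ j) • (Wps y ^ j * d⁄dX ℝ (Wps y)) := by
    rw [neg_pow, smul_eq_C_mul, map_pow, map_neg, map_one]; ring
  rw [e, map_smul, smul_eq_mul, aa, Nat.factorial_succ, eq_div_iff (by positivity)]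
  push_cast
  linear_combination ((-1) ^ j * (k.factorial : ℝ)) * coeff_pow_dW (y := y) j k

section
variable (h : MeasStmt) (hy : 0 < y)
include h hy

lemma ww_nonneg (k : ℕ) : 0 ≤ ww y k := by
  rw [ww]; split_ifs
  · exact le_rfl
  · exact (h.mm_pos y k hy).le

lemma NN_W : NN (Wps y) := fun n => by
  rw [coeff_W]; exact div_nonneg (ww_nonneg h hy n) (by positivity)

lemma aa_nonneg (j m : ℕ) : 0 ≤ aa y j m := mul_nonneg (by positivity) ((NN_W h hy).pow j m)

lemma step_up (j m : ℕ) :
    ((m : ℝ) + 1 - j) * aa y j (m + 1) ≤ j * bet y * (m + 1) * aa y j m := by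
  rcases j with _ | i
  · simp [aa, coeff_one]
  have hN : NN (bet y • Wps y - d⁄dX ℝ (Wps y) + Qps y) := fun r => by
    rw [map_add, map_sub, map_smul, coeff_dW, coeff_W, ww, Qps, coeff_mk, smul_eq_mul]
    split_ifs with hr
    · simp [hr]
    · have h1 := h.mm_up y r hy
      have h2 := h.mm_pos y (r + 1) hy
      rw [← mul_div_assoc, ← sub_div]
      exact add_nonneg (div_nonneg (by linarith) (by positivity)) (by positivity)
  have := ((NN_W h hy).pow i).mul hN m
  rw [mul_add, mul_sub, mul_smul_comm, ← pow_succ, map_add, map_sub, map_smul, coeff_pow_Q,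
    smul_eq_mul] at this
  have h3 := mul_nonneg (by positivity : (0 : ℝ) ≤ (i + 1) * (m + 1) * m.factorial) this
  simp only [aa, Nat.factorial_succ]
  push_cast
  linear_combination h3 - ((m + 1) * (m.factorial : ℝ)) * coeff_pow_dW (y := y) i m

lemma step_low (j m : ℕ) :
    j * bet y * (m + 1) * aa y j m ≤ ((m : ℝ) + 1 + 6 * j) * aa y j (m + 1) := by
  rcases j with _ | i
  · simp [aa, coeff_one]
  have hN : NN (d⁄dX ℝ (Wps y) + (6 : ℝ) • Qps y - bet y • Wps y) := fun r => by
    rw [map_sub, map_add, map_smul, map_smul, coeff_dW, coeff_W, ww, Qps, coeff_mk, smul_eq_mul,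
      smul_eq_mul]
    have h2 := h.mm_pos y (r + 1) hy
    split_ifs with hr
    · rw [zero_div, mul_zero, sub_zero]; positivity
    · have h1 := h.mm_low y r hy (Nat.pos_of_ne_zero hr)
      have e : mm (-y) (r + 1) / r.factorial + 6 * (mm (-y) (r + 1) / (r + 1).factorial) -
          bet y * (mm (-y) r / r.factorial) =
          (mm (-y) (r + 1) * (1 + 6 / (r + 1)) - bet y * mm (-y) r) / r.factorial := by
        rw [Nat.factorial_succ]; push_cast; field_simp
      rw [e]
      exact div_nonneg (by linarith) (by positivity)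
  have := ((NN_W h hy).pow i).mul hN m
  rw [mul_sub, mul_add, mul_smul_comm, mul_smul_comm, ← pow_succ, map_sub, map_add, map_smul,
    map_smul, coeff_pow_Q, smul_eq_mul, smul_eq_mul] at this
  have h3 := mul_nonneg (by positivity : (0 : ℝ) ≤ (i + 1) * (m + 1) * m.factorial) this
  simp only [aa, Nat.factorial_succ]
  push_cast
  linear_combination h3 + ((m + 1) * (m.factorial : ℝ)) * coeff_pow_dW (y := y) i m

lemma iter_low (j m : ℕ) : ∀ N, N + j ≤ m →
    (m - j).choose N * aa y j m ≤ m.choose N * aa y j (m - N) * (j * bet y) ^ N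
  | 0, _ => by simp
  | N + 1, hN => by
    have ih := iter_low j m N (by omega)
    obtain ⟨n, rfl⟩ : ∃ n, m = n + 1 + N := ⟨m - (N + 1), by omega⟩
    have hb : 0 ≤ bet y := by linarith [h.bet_ge y hy]
    have s := step_up h hy j n
    have c1 : ((n + 1 + N - j).choose (N + 1) : ℝ) * (N + 1) =
        (n + 1 + N - j).choose N * (n + 1 - j) := by
      have := Nat.choose_succ_right_eq (n + 1 + N - j) N
      rw [show n + 1 + N - j - N = n + 1 - j by omega] at this
      have := congrArg (Nat.cast : ℕ → ℝ) this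
      push_cast [show j ≤ n + 1 by omega] at this
      exact this
    have c2 : ((n + 1 + N).choose (N + 1) : ℝ) * (N + 1) = (n + 1 + N).choose N * (n + 1) := by
      have := Nat.choose_succ_right_eq (n + 1 + N) N
      rw [Nat.add_sub_cancel] at this
      exact_mod_cast this
    rw [Nat.add_sub_cancel] at ih
    rw [show n + 1 + N - (N + 1) = n by omega]
    have hj : (0 : ℝ) ≤ n + 1 - j := by
      have : (j : ℝ) ≤ n := by exact_mod_cast (show j ≤ n by omega)
      linarith
    refine le_of_mul_le_mul_right ?_ (by positivity : (0 : ℝ) < N + 1)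
    have a1 := mul_le_mul_of_nonneg_left ih hj
    have a2 := mul_le_mul_of_nonneg_left s
      (by positivity : (0 : ℝ) ≤ (n + 1 + N).choose N * (j * bet y) ^ N)
    linear_combination a1 + a2 + aa y j (n + 1 + N) * c1 - aa y j n * (j * bet y) ^ (N + 1) * c2

lemma iter_up (j m : ℕ) : ∀ N, N ≤ m →
    m.choose N * aa y j (m - N) * (j * bet y) ^ N ≤ (m + 6 * j).choose N * aa y j m
  | 0, _ => by simp
  | N + 1, hN => by
    have ih := iter_up j m N (by omega)
    obtain ⟨n, rfl⟩ : ∃ n, m = n + 1 + N := ⟨m - (N + 1), by omega⟩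
    have hb : 0 ≤ bet y := by linarith [h.bet_ge y hy]
    have s := step_low h hy j n
    have c1 : ((n + 1 + N + 6 * j).choose (N + 1) : ℝ) * (N + 1) =
        (n + 1 + N + 6 * j).choose N * (n + 1 + 6 * j) := by
      have := Nat.choose_succ_right_eq (n + 1 + N + 6 * j) N
      rw [show n + 1 + N + 6 * j - N = n + 1 + 6 * j by omega] at this
      exact_mod_cast this
    have c2 : ((n + 1 + N).choose (N + 1) : ℝ) * (N + 1) = (n + 1 + N).choose N * (n + 1) := by
      have := Nat.choose_succ_right_eq (n + 1 + N) N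
      rw [Nat.add_sub_cancel] at this
      exact_mod_cast this
    rw [Nat.add_sub_cancel] at ih
    rw [show n + 1 + N - (N + 1) = n by omega]
    refine le_of_mul_le_mul_right ?_ (by positivity : (0 : ℝ) < N + 1)
    have a1 := mul_le_mul_of_nonneg_left ih (by positivity : (0 : ℝ) ≤ n + 1 + 6 * j)
    have a2 := mul_le_mul_of_nonneg_left s
      (by positivity : (0 : ℝ) ≤ (n + 1 + N).choose N * (j * bet y) ^ N)
    linear_combination a1 + a2 - aa y j (n + 1 + N) * c1 + aa y j n * (j * bet y) ^ (N + 1) * c2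

end

theorem coef (h : MeasStmt) : CoefStmt where
  cc_eq y m _ hm := by
    obtain ⟨k, rfl⟩ : ∃ k, m = k + 1 := ⟨m - 1, by omega⟩
    exact cc_eq y k
  pos y j m hy hj hm := by
    obtain ⟨i, rfl⟩ : ∃ i, j = i + 1 := ⟨j - 1, by omega⟩
    rw [aa, W_eq, mul_pow, coeff_X_pow_mul', if_pos hm]
    refine mul_pos (by positivity) (pow_pos' (fun n => ?_) _ _)
    have := h.mm_pos y (n + 1) hy
    rw [Qps, coeff_mk]; positivity
  zero := aa_zero
  diag y m := by rw [aa_self, aa_self, Nat.factorial_succ]; push_cast; ring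
  step_up y j m hy := step_up h hy j m
  step_low y j m hy := step_low h hy j m
  ratio_low y j m hy hj hm := by
    have hb : 0 < bet y := by linarith [h.bet_ge y hy]
    have hj' : (0 : ℝ) < j := by exact_mod_cast hj
    rw [VI_eq hy, aa_succ, sum_mul]
    refine le_trans (sum_le_sum fun N hN => ?_) (sum_le_sum_of_subset_of_nonneg
      (range_mono (by omega : m - j + 1 ≤ m + 1)) fun N _ _ =>
        mul_nonneg (mul_nonneg (by positivity) (ww_nonneg h hy N)) (aa_nonneg h hy _ _))
    have := mul_le_mul_of_nonneg_left (iter_low h hy j m N (by have := mem_range.1 hN; omega))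
      (ww_nonneg h hy N)
    rw [div_mul_eq_mul_div, div_le_iff₀ (by positivity)]
    linear_combination this
  ratio_up y j m hy hj := by
    have hb : 0 < bet y := by linarith [h.bet_ge y hy]
    have hj' : (0 : ℝ) < j := by exact_mod_cast hj
    rw [VI_eq hy, aa_succ, sum_mul]
    refine le_trans (sum_le_sum fun N hN => ?_) (sum_le_sum_of_subset_of_nonneg
      (range_mono (by omega : m + 1 ≤ m + 6 * j + 1)) fun N _ _ =>
        mul_nonneg (div_nonneg (mul_nonneg (by positivity) (ww_nonneg h hy N)) (by positivity))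
          (aa_nonneg h hy _ _))
    have := mul_le_mul_of_nonneg_left (iter_up h hy j m N (by have := mem_range.1 hN; omega))
      (ww_nonneg h hy N)
    rw [div_mul_eq_mul_div, le_div_iff₀ (by positivity)]
    linear_combination this

end Pool.Agent.MP_dbd6a6_co.H86
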